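import Pool.Agent.Slope.Final

set_option autoImplicit false

/-!
# The slope number problem is complete for the existential theory of the reals

SLOPE NUMBER: given a graph `G` (finite, simple) and an integer `k`, is there a straight-line
drawing of `G` (edges may cross, no vertex in the interior of an edge) with at most `k` slopes?

Idea of the hardness proof. Fix `k` slopes, `k` odd; they give `2 k` rays at every point.
* If two nonadjacent vertices `u`, `v` have `2 k - 2` common neighbours, then `v` lies in the open
  sector between two consecutive rays of `u`, and all the other rays of `u` are used by the common
  neighbours. If two adjacent vertices have `2 k - 4` common neighbours, the common neighbours use
  all the rays of the two vertices except five known ones each.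
* Hence in a cycle of `k` vertices in which every vertex has such a partner, the slopes of
  consecutive edges of the cycle are neighbours in the cyclic order, always in the same sense; so
  the edges of the cycle carry all the `k` slopes in their cyclic order and can be used as labels.
* An adjacent pair with full junk, on the way from a hub `P` to a hub `Q` and joined to the
  partners of labelled star vertices, forces the line `P Q` to have the labelled slope. All labels
  are the same for consecutive stars, because two gadget vertices see the same labels.
* Polynomial equations are then encoded by the slopes `m_v`, `q_v` (with value `m_v / q_v`) and the
  classical von Staudt constructions, one bounded gadget for every equation.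
For the converse (drawing from a solution) all remaining freedom is used generically.
-/

namespace Pool.Agent.Results.MP_09bf15_lc.SlopeNumberERComplete

/-- SLOPE NUMBER is `∃ℝ`-complete. -/
theorem result : Pool.Agent.Slope.ERComplete Pool.Agent.Slope.encInst
    Pool.Agent.Slope.SlopeProblem :=
  Pool.Agent.Slope.slope_complete

end Pool.Agent.Results.MP_09bf15_lc.SlopeNumberERComplete
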